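import Pool.Agent.W845.DH.Stm

/-!
DH-FSA: extremal case, balanced
-/

set_option autoImplicit false
open scoped Classical

namespace Pool.Agent.W672.DH

open Pool.Agent.W845.DH

theorem core {V : Type} [Fintype V] (η : ℝ) (D : V → V → Prop) (S T : Finset V)
    (hη : 1 / 2 ≤ η)
    (happ : ∀ (G : V → V → Prop) (F1 F2 : Finset (V × V)),
      (∀ u v, D u v → G u v) → VDs (F1 ∪ F2) → (∀ e ∈ F1 ∪ F2, G e.1 e.2) →
      ((F1 ∪ F2).card ≤ 2) → (∀ e ∈ F1, e.1 ∈ S ∧ e.2 ∈ T) → (∀ e ∈ F2, e.1 ∉ S ∧ e.2 ∉ T) →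
      F1.card + Fintype.card V = F2.card + S.card + T.card →
      ((∃ v, v ∈ S ∧ v ∈ T ∧ v ∉ vs (F1 ∪ F2)) ∨ (∃ v, v ∉ S ∧ v ∉ T ∧ v ∉ vs (F1 ∪ F2)) ∨
        (∃ e ∈ F1, e.1 ∉ T ∧ e.2 ∉ S)) → HamD G)
    (hST : S.card + T.card = Fintype.card V)
    (hS : (Fintype.card V : ℝ) / 8 ≤ S.card) (hT : (Fintype.card V : ℝ) / 8 ≤ T.card) :
    ∃ X Y : Finset V, Disjoint X Y ∧ (Fintype.card V : ℝ) / 8 ≤ X.card ∧
      (Fintype.card V : ℝ) / 8 ≤ Y.card ∧
    ∀ R : Finset (V × V),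
      (∃ M ⊆ R, VDs M ∧ (∀ e ∈ M, e.1 ∈ X ∧ e.2 ∈ Y) ∧ 10 * η ≤ (M.card : ℝ)) →
      (∃ M ⊆ R, VDs M ∧ (∀ e ∈ M, e.1 ∈ Y ∧ e.2 ∈ X) ∧ 10 * η ≤ (M.card : ℝ)) →
      HamD (fun u v => D u v ∨ (u, v) ∈ R) := by
  by_cases hne : (S ∩ T).Nonempty
  · obtain ⟨v, hv⟩ := hne
    obtain ⟨hvS, hvT⟩ := Finset.mem_inter.1 hv
    refine ⟨S, Sᶜ, disjoint_compl_right, hS, ?_, ?_⟩
    · have h1 : (Sᶜ).card = T.card := by
        rw [Finset.card_compl]
        omega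
      rw [h1]
      exact hT
    · intro R _ _
      refine happ _ ∅ ∅ (fun u v h => Or.inl h) ?_ ?_ ?_ ?_ ?_ ?_ ?_
      · refine ⟨fun e he => ?_, fun e he => ?_⟩
        · simp at he
        · simp at he
      · intro e he; simp at he
      · simp
      · intro e he; simp at he
      · intro e he; simp at he
      · simp only [Finset.card_empty]; omega
      · left
        exact ⟨v, hvS, hvT, by simp [vs]⟩
  · have hdisj : Disjoint S T := by
      rw [Finset.disjoint_iff_inter_eq_empty]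
      exact Finset.not_nonempty_iff_eq_empty.1 hne
    refine ⟨S, T, hdisj, hS, hT, ?_⟩
    rintro R ⟨M, hMR, hMV, hMe, hMc⟩ ⟨M', hMR', -, hMe', hMc'⟩
    have hM5 : 5 ≤ M.card := by
      have : (5 : ℝ) ≤ M.card := by linarith
      exact_mod_cast this
    have hM5' : 0 < M'.card := by
      have : (0 : ℝ) < M'.card := by linarith
      exact_mod_cast this
    obtain ⟨f1, hf1⟩ := Finset.card_pos.1 hM5'
    obtain ⟨hw1, hu1⟩ := hMe' f1 hf1
    obtain ⟨f0, hf0, hne1, hne2⟩ : ∃ f0 ∈ M, f0.1 ≠ f1.2 ∧ f0.2 ≠ f1.1 := by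
      by_contra hcon
      push Not at hcon
      have hsub : M ⊆ M.filter (fun e => e.1 = f1.2) ∪ M.filter (fun e => e.2 = f1.1) := by
        intro e he
        rw [Finset.mem_union, Finset.mem_filter, Finset.mem_filter]
        by_cases h : e.1 = f1.2
        · exact Or.inl ⟨he, h⟩
        · exact Or.inr ⟨he, hcon e he h⟩
      have h1 : (M.filter (fun e => e.1 = f1.2)).card ≤ 1 := by
        rw [Finset.card_le_one]
        intro a ha b hb
        obtain ⟨ha1, ha2⟩ := Finset.mem_filter.1 ha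
        obtain ⟨hb1, hb2⟩ := Finset.mem_filter.1 hb
        by_contra hab
        exact (hMV.2 a ha1 b hb1 hab).1 (ha2.trans hb2.symm)
      have h2 : (M.filter (fun e => e.2 = f1.1)).card ≤ 1 := by
        rw [Finset.card_le_one]
        intro a ha b hb
        obtain ⟨ha1, ha2⟩ := Finset.mem_filter.1 ha
        obtain ⟨hb1, hb2⟩ := Finset.mem_filter.1 hb
        by_contra hab
        exact (hMV.2 a ha1 b hb1 hab).2.2.2 (ha2.trans hb2.symm)
      have h3 := (Finset.card_le_card hsub).trans (Finset.card_union_le _ _)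
      omega
    obtain ⟨hu0, hw0⟩ := hMe f0 hf0
    have hnotT : ∀ x, x ∈ S → x ∉ T := fun x hx hx' => Finset.disjoint_left.1 hdisj hx hx'
    have hneq : ∀ x y, x ∈ S → y ∈ T → x ≠ y := fun x y hx hy h => hnotT x hx (h ▸ hy)
    have hmem : ∀ e, e ∈ ({f0} : Finset (V × V)) ∪ {f1} ↔ e = f0 ∨ e = f1 := by
      intro e
      rw [Finset.mem_union, Finset.mem_singleton, Finset.mem_singleton]
    refine happ _ {f0} {f1} (fun u v h => Or.inl h) ?_ ?_ ?_ ?_ ?_ ?_ ?_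
    · refine ⟨fun e he => ?_, fun e he f hf hef => ?_⟩
      · rcases (hmem e).1 he with rfl | rfl
        · exact hneq _ _ hu0 hw0
        · exact (hneq _ _ hu1 hw1).symm
      · rcases (hmem e).1 he with rfl | rfl
        · rcases (hmem f).1 hf with rfl | rfl
          · exact absurd rfl hef
          · exact ⟨hneq _ _ hu0 hw1, hne1, hne2, (hneq _ _ hu1 hw0).symm⟩
        · rcases (hmem f).1 hf with rfl | rfl
          · exact ⟨(hneq _ _ hu0 hw1).symm, hne2.symm, hne1.symm, hneq _ _ hu1 hw0⟩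
          · exact absurd rfl hef
    · intro e he
      right
      rcases (hmem e).1 he with rfl | rfl
      · exact hMR hf0
      · exact hMR' hf1
    · refine (Finset.card_union_le _ _).trans ?_
      rw [Finset.card_singleton, Finset.card_singleton]
    · intro e he
      rw [Finset.mem_singleton] at he
      rw [he]
      exact ⟨hu0, hw0⟩
    · intro e he
      rw [Finset.mem_singleton] at he
      rw [he]
      exact ⟨fun h => hnotT _ h hw1, hnotT _ hu1⟩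
    · rw [Finset.card_singleton, Finset.card_singleton]; omega
    · right; right
      exact ⟨f0, Finset.mem_singleton_self _, hnotT _ hu0, fun h => hnotT _ h hw0⟩

theorem core2 {V : Type} [Fintype V] (N : ℕ)
    (hN : ∀ (V : Type) [Fintype V]
      (D G : V → V → Prop) (S T : Finset V) (F1 F2 : Finset (V × V)), N ≤ Fintype.card V →
      (∀ u v, D u v → G u v) → Part (32 * (1 / 8192 : ℝ)) ((1 / 8192 : ℝ) ^ 2) D S T →
      (Fintype.card V : ℝ) / 4 ≤ (S.card : ℝ) → (S.card : ℝ) ≤ 3 / 4 * (Fintype.card V : ℝ) →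
      (Fintype.card V : ℝ) / 4 ≤ (T.card : ℝ) → (T.card : ℝ) ≤ 3 / 4 * (Fintype.card V : ℝ) →
      VDs (F1 ∪ F2) → (∀ e ∈ F1 ∪ F2, G e.1 e.2) →
      ((F1 ∪ F2).card : ℝ) ≤ 4 * (1 / 8192 : ℝ) * Fintype.card V →
      (∀ e ∈ F1, e.1 ∈ S ∧ e.2 ∈ T) → (∀ e ∈ F2, e.1 ∉ S ∧ e.2 ∉ T) →
      F1.card + Fintype.card V = F2.card + S.card + T.card →
      ((∃ v, v ∈ S ∧ v ∈ T ∧ v ∉ vs (F1 ∪ F2)) ∨ (∃ v, v ∉ S ∧ v ∉ T ∧ v ∉ vs (F1 ∪ F2)) ∨
        (∃ e ∈ F1, e.1 ∉ T ∧ e.2 ∉ S)) → HamD G)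
    (η : ℝ) (D : V → V → Prop) (S T : Finset V) (hn1 : N ≤ Fintype.card V)
    (hn2 : 4096 ≤ Fintype.card V) (hη : 1 / 2 ≤ η) (hStr : Str (1 / 2 ^ 33) D S T)
    (hST : S.card + T.card = Fintype.card V) :
    ∃ X Y : Finset V, Disjoint X Y ∧ (Fintype.card V : ℝ) / 8 ≤ X.card ∧
      (Fintype.card V : ℝ) / 8 ≤ Y.card ∧
    ∀ R : Finset (V × V),
      (∃ M ⊆ R, VDs M ∧ (∀ e ∈ M, e.1 ∈ X ∧ e.2 ∈ Y) ∧ 10 * η ≤ (M.card : ℝ)) →
      (∃ M ⊆ R, VDs M ∧ (∀ e ∈ M, e.1 ∈ Y ∧ e.2 ∈ X) ∧ 10 * η ≤ (M.card : ℝ)) →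
      HamD (fun u v => D u v ∨ (u, v) ∈ R) := by
  have hnr : (4096 : ℝ) ≤ (Fintype.card V : ℝ) := by exact_mod_cast hn2
  obtain ⟨hPart, hS, hT, -, -, -⟩ := hStr
  set n : ℝ := (Fintype.card V : ℝ) with hn
  have hS' := abs_le.1 hS
  have hT' := abs_le.1 hT
  have hS1 : n / 4 ≤ S.card := by linarith [hS'.1]
  have hS2 : (S.card : ℝ) ≤ 3 / 4 * n := by linarith [hS'.2]
  have hT1 : n / 4 ≤ T.card := by linarith [hT'.1]
  have hT2 : (T.card : ℝ) ≤ 3 / 4 * n := by linarith [hT'.2]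
  have hPart' : Part (32 * (1 / 8192 : ℝ)) ((1 / 8192 : ℝ) ^ 2) D S T := by
    obtain ⟨p1, p2, p3, p4, p5⟩ := hPart
    have e1 : (32 * (1 / 8192) : ℝ) = 1 / 256 := by norm_num
    rw [e1]
    refine ⟨p1, p2, p3, p4, p5.trans ?_⟩
    apply mul_le_mul_of_nonneg_right _ (by positivity)
    norm_num
  refine core η D S T hη ?_ hST (by linarith) (by linarith)
  intro G F1 F2 h1 h2 h3 h4 h5 h6 h7 h8
  refine hN V D G S T F1 F2 hn1 h1 hPart' hS1 hS2 hT1 hT2 h2 h3 ?_ h5 h6 h7 h8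
  have h4' : ((F1 ∪ F2).card : ℝ) ≤ 2 := by exact_mod_cast h4
  rw [← hn]
  linarith

theorem fsa : S_H → S_FSA := by
  intro hH
  obtain ⟨N, hN⟩ := hH (1 / 8192) (by norm_num) (by norm_num)
  refine ⟨max N 4096, ?_⟩
  intro n η D S T hn _ hη hStr hST
  have hn1 : N ≤ n := (le_max_left _ _).trans hn
  have hn2 : 4096 ≤ n := (le_max_right _ _).trans hn
  have hc : Fintype.card (Fin n) = n := Fintype.card_fin n
  have h := core2 (V := Fin n) N hN η D S T (by rw [hc]; exact hn1) (by rw [hc]; exact hn2) hη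
    hStr (by rw [hc]; exact hST)
  rw [hc] at h
  exact h

end Pool.Agent.W672.DH
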