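import Pool.Agent.W845.DH.Stm

/-!
DH-HM: merging two cycles in a nearly complete pair
-/

set_option autoImplicit false
open scoped Classical

namespace Pool.Agent.W672.DH

open Pool.Agent.W845.DH

/-- transport of a count along the permutation -/
theorem tr {V : Type} [Fintype V] (σ : Equiv.Perm V) (U W : Finset V) (hc : U.card = W.card)
    (hU : ∀ u ∈ U, σ u ∈ W) (R : V → Prop) [DecidablePred fun v => R (σ v)] [DecidablePred R] :
    (U.filter (fun v => R (σ v))).card = (W.filter R).card := by
  have himg : U.image σ = W := by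
    apply Finset.eq_of_subset_of_card_le
    · intro w hw
      obtain ⟨u, hu, rfl⟩ := Finset.mem_image.1 hw
      exact hU u hu
    · rw [Finset.card_image_of_injective _ σ.injective, hc]
  have h1 : (U.filter (fun v => R (σ v))).image σ = W.filter R := by
    ext w
    rw [Finset.mem_image, Finset.mem_filter]
    constructor
    · rintro ⟨v, hv, rfl⟩
      obtain ⟨hv1, hv2⟩ := Finset.mem_filter.1 hv
      exact ⟨hU v hv1, hv2⟩
    · rintro ⟨hw, hR⟩
      rw [← himg] at hw
      obtain ⟨u, hu, rfl⟩ := Finset.mem_image.1 hw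
      exact ⟨u, Finset.mem_filter.2 ⟨hu, hR⟩, rfl⟩
  rw [← h1, Finset.card_image_of_injective _ σ.injective]

theorem card4 {V : Type} (A B C D E : Finset V) (h : A ⊆ B ∪ (C ∪ (D ∪ E))) :
    A.card ≤ B.card + (C.card + (D.card + E.card)) := by
  refine (Finset.card_le_card h).trans ((Finset.card_union_le _ _).trans ?_)
  refine Nat.add_le_add_left ((Finset.card_union_le _ _).trans ?_) _
  exact Nat.add_le_add_left (Finset.card_union_le _ _) _

theorem hm : S_HM := by
  intro V _ D U W P Q l b c σ hB hσ hxy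
  obtain ⟨b1, b2, b3, b4, b5, b6, b7, b8, b9, b10, b11⟩ := hB
  have hU : ∀ u ∈ U, σ u ∈ W := fun u hu => (hσ u hu).1
  have hQ : (U.filter (fun v => ¬ Q (σ v))).card ≤ l := by
    rw [tr σ U W b1 hU (fun w => ¬ Q w)]; exact b6
  -- candidates
  have hcand : ∀ u ∈ U, b ≤ (U.filter (fun v => D u (σ v) ∧ D v (σ u) ∧ P v ∧ Q (σ v))).card +
      3 * l := by
    intro u hu
    obtain ⟨h1, h2, h3⟩ := hσ u hu
    rcases h3 with h3 | h3
    · have g1 : b ≤ (U.filter (fun v => D v (σ u))).card := b10 (σ u) h1
      have g2 : (U.filter (fun v => ¬ D u (σ v))).card ≤ l := by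
        rw [tr σ U W b1 hU (fun w => ¬ D u w)]; exact b7 u hu h3
      have g3 := card4 (U.filter (fun v => D v (σ u)))
        (U.filter (fun v => D u (σ v) ∧ D v (σ u) ∧ P v ∧ Q (σ v)))
        (U.filter (fun v => ¬ D u (σ v))) (U.filter (fun v => ¬ P v))
        (U.filter (fun v => ¬ Q (σ v))) (by
          intro v hv
          obtain ⟨hv1, hv2⟩ := Finset.mem_filter.1 hv
          simp only [Finset.mem_union, Finset.mem_filter]
          tauto)
      omega
    · have g1 : b ≤ (U.filter (fun v => D u (σ v))).card := by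
        rw [tr σ U W b1 hU (fun w => D u w)]; exact b9 u hu
      have g2 : (U.filter (fun v => ¬ D v (σ u))).card ≤ l := b8 (σ u) h1 h3
      have g3 := card4 (U.filter (fun v => D u (σ v)))
        (U.filter (fun v => D u (σ v) ∧ D v (σ u) ∧ P v ∧ Q (σ v)))
        (U.filter (fun v => ¬ D v (σ u))) (U.filter (fun v => ¬ P v))
        (U.filter (fun v => ¬ Q (σ v))) (by
          intro v hv
          obtain ⟨hv1, hv2⟩ := Finset.mem_filter.1 hv
          simp only [Finset.mem_union, Finset.mem_filter]
          tauto)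
      omega
  by_cases hall : ∃ u ∈ U, ∃ v ∈ U, ¬ σ.SameCycle u v ∧ D u (σ v) ∧ D v (σ u) ∧ Q (σ v) ∧ P v
  · exact hall
  · exfalso
    push Not at hall
    obtain ⟨x0, hx0, y0, hy0, hne⟩ := hxy
    -- the two sets
    have hc : ∀ z ∈ U, b - 5 * l ≤
        (U.filter (fun v => σ.SameCycle z v ∧ P v ∧ Q (σ v))).card := by
      intro z hz
      have h1 := hcand z hz
      have h2 : (U.filter (fun v => D z (σ v) ∧ D v (σ z) ∧ P v ∧ Q (σ v))) ⊆
          (U.filter (fun v => σ.SameCycle z v ∧ P v ∧ Q (σ v))) := by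
        intro v hv
        obtain ⟨hv1, hv2, hv3, hv4, hv5⟩ := Finset.mem_filter.1 hv
        refine Finset.mem_filter.2 ⟨hv1, ?_, hv4, hv5⟩
        by_contra hcon
        exact hall z hz v hv1 hcon hv2 hv3 hv5 hv4
      have h3 := Finset.card_le_card h2
      omega
    set c1 := U.filter (fun v => σ.SameCycle x0 v ∧ P v ∧ Q (σ v)) with hc1
    set c2 := U.filter (fun v => σ.SameCycle y0 v ∧ P v ∧ Q (σ v)) with hc2
    have hk1 := hc x0 hx0
    have hk2 := hc y0 hy0
    have hm1 : ((c1 ×ˢ c2).filter (fun e => ¬ D e.1 (σ e.2))).card ≤ mis D U W := by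
      unfold mis
      apply Finset.card_le_card_of_injOn (fun e => (e.1, σ e.2))
      · intro e he
        obtain ⟨he1, he2⟩ := Finset.mem_filter.1 (Finset.mem_coe.1 he)
        obtain ⟨he3, he4⟩ := Finset.mem_product.1 he1
        rw [Finset.mem_coe, Finset.mem_filter, Finset.mem_product]
        exact ⟨⟨(Finset.mem_filter.1 he3).1, hU _ (Finset.mem_filter.1 he4).1⟩, he2⟩
      · intro e _ f _ hef
        have h1 := congrArg Prod.fst hef
        have h2 := congrArg Prod.snd hef
        exact Prod.ext h1 (σ.injective h2)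
    have hm2 : ((c1 ×ˢ c2).filter (fun e => ¬ D e.2 (σ e.1))).card ≤ mis D U W := by
      unfold mis
      apply Finset.card_le_card_of_injOn (fun e => (e.2, σ e.1))
      · intro e he
        obtain ⟨he1, he2⟩ := Finset.mem_filter.1 (Finset.mem_coe.1 he)
        obtain ⟨he3, he4⟩ := Finset.mem_product.1 he1
        rw [Finset.mem_coe, Finset.mem_filter, Finset.mem_product]
        exact ⟨⟨(Finset.mem_filter.1 he4).1, hU _ (Finset.mem_filter.1 he3).1⟩, he2⟩
      · intro e _ f _ hef
        have h1 := congrArg Prod.fst hef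
        have h2 := congrArg Prod.snd hef
        exact Prod.ext (σ.injective h2) h1
    have hsub : (c1 ×ˢ c2) ⊆ ((c1 ×ˢ c2).filter (fun e => ¬ D e.1 (σ e.2))) ∪
        ((c1 ×ˢ c2).filter (fun e => ¬ D e.2 (σ e.1))) := by
      intro e he
      rw [Finset.mem_union, Finset.mem_filter, Finset.mem_filter]
      by_contra hcon
      have hA : D e.1 (σ e.2) := by
        by_contra h
        exact hcon (Or.inl ⟨he, h⟩)
      have hA' : D e.2 (σ e.1) := by
        by_contra h
        exact hcon (Or.inr ⟨he, h⟩)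
      obtain ⟨he3, he4⟩ := Finset.mem_product.1 he
      obtain ⟨u1, u2, u3, u4⟩ := Finset.mem_filter.1 he3
      obtain ⟨v1, v2, v3, v4⟩ := Finset.mem_filter.1 he4
      have hns : ¬ σ.SameCycle e.1 e.2 := fun h => hne ((u2.trans h).trans v2.symm)
      exact hall e.1 u1 e.2 v1 hns hA hA' v4 v3
    have h1 := (Finset.card_le_card hsub).trans (Finset.card_union_le _ _)
    rw [Finset.card_product] at h1
    have h2 : (b - 5 * l) ^ 2 ≤ c1.card * c2.card := by
      rw [pow_two]
      exact Nat.mul_le_mul hk1 hk2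
    omega

end Pool.Agent.W672.DH
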